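import Pool.Agent.J6H72.ZM.GSFin

set_option autoImplicit false

/-!
# MP_07318d_nt: the full moment conjecture with a power saving, for almost all shifts

The moment polynomials `P_k` of the question come from a conjecture of Conrey, Farmer, Keating,
Rubinstein and Snaith for the shifted moments
`∫_0^S ∏_{j ≤ k} ζ(1/2 + i(t + α_j)) ζ(1/2 - i(t + β_j)) dt`:
up to a power saving they are equal to the integral of the sum, over all the ways to exchange some of
the shifts `α_j` with as many of the `β_j`, of the factor `χ` of the functional equation for the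
exchanged shifts times `G = A_k ∏_{j, l} ζ(1 + i α_j - i β_l)`; the `2k`-th moment is the case in which
all the shifts are zero.

We prove this, unconditionally and for every `k`, for almost all shift vectors `(α, β)` of the cube
`[0, T]^{2k}`: there is `δ > 0` such that, outside a set of shift vectors of measure at most
`T^(2k - δ)`, the error is at most `T^(1 - δ)` for all `0 ≤ S ≤ T` at the same time.
-/

namespace Pool.Agent.Results.MP_07318d_nt.AlmostAllShifts

open Complex MeasureTheory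

noncomputable section

variable {k : ℕ}

/-- The factor of the functional equation `ζ(s) = χ(s) ζ(1 - s)`. -/
def chi (s : ℂ) : ℂ := (Real.pi : ℂ) ^ (s - 1 / 2) * Gamma ((1 - s) / 2) / Gamma (s / 2)

/-- The shifted divisor function `∑_{n_1 ⋯ n_k = n} n_1 ^ l_1 ⋯ n_k ^ l_k`. -/
def tau (l : Fin k → ℂ) (n : ℕ) : ℂ := ∑ f ∈ Nat.finMulAntidiag k n, ∏ j, (f j : ℂ) ^ l j

/-- The local factor of `A_k` at the prime `p`, in the variables `i a_j`, `i b_l` (the integral over
`θ` in the definition of `A_k` is the sum over `m`). -/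
def localFactor (a b : Fin k → ℂ) (p : ℕ) : ℂ :=
  (∏ j, ∏ l, (1 - (p : ℂ) ^ (-(1 + I * a j - I * b l)))) *
    ∑' m : ℕ, tau (fun j => I * b j) (p ^ m) * tau (fun j => -(I * a j)) (p ^ m) * ((p : ℂ) ^ m)⁻¹

/-- `G(i a, i b) = A_k(i a, i b) ∏_{j, l} ζ(1 + i a_j - i b_l)`. -/
def G (a b : Fin k → ℂ) : ℂ :=
  (∏' p : Nat.Primes, localFactor a b p) * ∏ j, ∏ l, riemannZeta (1 + I * a j - I * b l)

/-- The integrand `∏_j ζ(1/2 + i(t + α_j)) ζ(1/2 - i(t + β_j))` of the shifted `2k`-th moment;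
`α = γ ∘ Sum.inl`, `β = γ ∘ Sum.inr`. -/
def shifted (γ : Fin k ⊕ Fin k → ℝ) (t : ℝ) : ℂ :=
  ∏ j : Fin k, riemannZeta (1 / 2 + I * (t + γ (Sum.inl j))) *
    riemannZeta (1 / 2 - I * (t + γ (Sum.inr j)))

/-- The factors `χ` of the shifts which the permutation `π` of the `2k` places moves from one half to
the other. -/
def swapFactor (t : ℝ) (γ : Fin k ⊕ Fin k → ℂ) (π : Equiv.Perm (Fin k ⊕ Fin k)) : ℂ :=
  (∏ j : Fin k, if (π (Sum.inl j)).isRight then chi (1 / 2 - I * t - I * γ (π (Sum.inl j))) else 1) *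
  ∏ j : Fin k, if (π (Sum.inr j)).isLeft then chi (1 / 2 + I * t + I * γ (π (Sum.inr j))) else 1

/-- The conjectured value: the sum over the `binom(2k, k)` choices of the `k` shifts which take the
places of the `α_j`, written as `(k!)⁻²` times a sum over all permutations of the `2k` shifts, of
`χ`-factors times `G`. -/
def recipe (γ : Fin k ⊕ Fin k → ℝ) (t : ℝ) : ℂ :=
  ((Nat.factorial k : ℂ) ^ 2)⁻¹ * ∑ π : Equiv.Perm (Fin k ⊕ Fin k),
    swapFactor t (fun i => (γ i : ℂ)) π *
      G (fun j => (γ (π (Sum.inl j)) : ℂ)) (fun j => (γ (π (Sum.inr j)) : ℂ))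

/-- **The full moment conjecture with a power saving for almost all shifts.** For every `k` there are
`δ > 0` and `T₀` such that for all `T ≥ T₀` the shift vectors `γ = (α, β)` in `[0, T]^{2k}` for which
`|∫_0^S ∏_j ζ(1/2 + i(t + α_j)) ζ(1/2 - i(t + β_j)) dt - ∫_0^S recipe dt| > T^(1 - δ)` for some
`0 ≤ S ≤ T` form a set of measure at most `T^(2k - δ)`. -/
theorem result (k : ℕ) : ∃ δ T₀ : ℝ, 0 < δ ∧ ∀ T : ℝ, T₀ ≤ T →
    volume {γ : Fin k ⊕ Fin k → ℝ | (∀ i, 0 ≤ γ i ∧ γ i ≤ T) ∧ ∃ S : ℝ, 0 ≤ S ∧ S ≤ T ∧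
      T ^ (1 - δ) < ‖∫ t in (0:ℝ)..S, (shifted γ t - recipe γ t)‖} ≤
    ENNReal.ofReal (T ^ (2 * k - δ)) := by
  obtain ⟨δ, hδ, T₀, h⟩ := Pool.Agent.J6H72.ZM.g_main k
  refine ⟨δ, T₀, hδ, fun T hT => ?_⟩
  rw [Pool.Agent.TH612.GS.vol_cube fun γ hγ => hγ.1]
  exact h T hT

end

end Pool.Agent.Results.MP_07318d_nt.AlmostAllShifts
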