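import Pool.Agent.J6H39.PI.Lead
import Pool.Agent.J6H39.PI.All

/-!
# The error term in the moment conjecture and the mean square of a Dirichlet polynomial

Let `k ≥ 1` be any integer, `v` a smooth cutoff (`v = 1` on `(-∞,-1]`, `v(x)² + v(-x)² = 1` for all `x`, so `v = 0` on `[1,∞)`) and
`D(t) = ∑ d_k(n) n^(-1/2-it) v(log n - (k/2) log(t/2π))`, a Dirichlet polynomial of length about `(t/2π)^(k/2)`. Nothing is assumed.

1. `∫_a^b |ζ(1/2+it)|^(2k) dt = 2 ∫_a^b |D(t)|² dt` up to `T^ε` times the moments over the intervals of length `2T^ε` about `a` and `b`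
   and `∫_a^b |ζ|^(2k) dt/(1+t) + 1`.
2. `∫_a^b |ζ(1/2+it)|^(2k) dt` is at most a constant times `∫_{a-T^ε}^{b+T^ε} |D(t)|² dt + 1`.
3. For every polynomial `P` and every exponent `θ ≥ 0`: the moment formula with main term `∫_0^T P(log(t/2π)) dt` and remainder `O(T^(θ+ε))` for
   every `ε > 0` holds if and only if the same holds for `2 ∫_0^T |D|²`.
4. The diagonal terms `∑ d_k(n)² v²/n` of `|D|²` contribute `∫_0^T Q(log(t/2π)) dt` with a polynomial `Q` of degree `k²` and explicit leading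
   coefficient, up to `O(T^(max(0,1-k/4)+ε))`; so for `θ ≥ max(0, 1-k/4)` (for `k ≥ 2` this includes `θ = 1/2`) the moment formula is
   equivalent to an asymptotic formula for the off-diagonal terms, with main term `∫_0^T (P-Q)(log(t/2π)) dt`.
-/

set_option autoImplicit false

open MeasureTheory Filter Topology Complex
open scoped ContDiff

namespace Pool.Agent.Results.MP_07318d_nt.ErrorTermEquivalence

/-- `|ζ(1/2+it)|^(2k)` -/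
noncomputable def power (k : ℕ) (t : ℝ) : ℝ := ‖riemannZeta (1 / 2 + (t : ℂ) * I)‖ ^ (2 * k)

/-- `d_k(n)`: the `k`-th Dirichlet power of the constant function one -/
noncomputable def divisorFn (k n : ℕ) : ℕ := ((ArithmeticFunction.zeta : ArithmeticFunction ℕ) ^ k) n

/-- smooth cutoffs: `v = 1` on `(-∞,-1]` and `v(x)² + v(-x)² = 1` for all `x` -/
structure IsCutoff (v : ℝ → ℝ) : Prop where
  smooth : ContDiff ℝ ∞ v
  one : ∀ x, x ≤ -1 → v x = 1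
  sq : ∀ x, v x ^ 2 + v (-x) ^ 2 = 1

/-- the logarithm of the length, `(k/2) log(t/2π)` -/
noncomputable def logLength (k : ℕ) (t : ℝ) : ℝ := k / 2 * Real.log (t / (2 * Real.pi))

/-- `D(t) = ∑ d_k(n) n^(-1/2-it) v(log n - (k/2) log(t/2π))`, a finite sum -/
noncomputable def poly (k : ℕ) (v : ℝ → ℝ) (t : ℝ) : ℂ :=
  ∑' n : ℕ, (divisorFn k n : ℂ) * (n : ℂ) ^ (-(1 / 2 + (t : ℂ) * I)) * (v (Real.log n - logLength k t) : ℂ)

/-- the off-diagonal terms of `|D(t)|²`: the sum over `m ≠ n` of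
`d_k(m) d_k(n) (mn)^(-1/2) v(log m - (k/2) log(t/2π)) v(log n - (k/2) log(t/2π)) cos(t log(m/n))` -/
noncomputable def offDiagonal (k : ℕ) (v : ℝ → ℝ) (t : ℝ) : ℝ :=
  ∑' p : ℕ × ℕ, if p.1 ≠ p.2 then (divisorFn k p.1 : ℝ) * (divisorFn k p.2 : ℝ) *
    ((p.1 : ℝ) * (p.2 : ℝ)) ^ (-(1 / 2) : ℝ) * v (Real.log p.1 - logLength k t) *
    v (Real.log p.2 - logLength k t) * Real.cos (t * Real.log ((p.1 : ℝ) / (p.2 : ℝ))) else 0

/-- the main term `∫_0^T P(log(t/2π)) dt` -/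
noncomputable def mainTerm (P : Polynomial ℝ) (T : ℝ) : ℝ := ∫ t in (0:ℝ)..T, P.eval (Real.log (t / (2 * Real.pi)))

/-- `F(T) = ∫_0^T P(log(t/2π)) dt + O(T^(θ+ε))` for every `ε > 0`, uniformly for `T ≥ 2` -/
def HasMainTerm (F : ℝ → ℝ) (P : Polynomial ℝ) (θ : ℝ) : Prop :=
  ∀ ε : ℝ, 0 < ε → ∃ C : ℝ, ∀ T : ℝ, 2 ≤ T → |F T - mainTerm P T| ≤ C * T ^ (θ + ε)

/-- `a_k = ∏_p (1 - 1/p)^((k-1)²) ∑_{j < k} C(k-1, j)² p^(-j)` -/
noncomputable def arith (k : ℕ) : ℝ :=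
  ∏' p : Nat.Primes, (1 - 1 / (p : ℝ)) ^ ((k - 1) ^ 2) *
    ∑ j ∈ Finset.range k, ((k - 1).choose j : ℝ) ^ 2 * ((p : ℝ) ^ j)⁻¹

theorem power_eq (k : ℕ) (t : ℝ) : ‖Pool.Agent.J6H39.PI.ff k t‖ ^ 2 = power k t := by
  unfold Pool.Agent.J6H39.PI.ff power Pool.Agent.J6H39.CG.zh
  rw [norm_pow, ← pow_mul, mul_comm k 2]

/-- **The moments of zeta and the mean square of `D`, with error terms.** -/
theorem result (k : ℕ) (hk : 1 ≤ k) (v : ℝ → ℝ) (hv : IsCutoff v) :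
    (∀ ε : ℝ, 0 < ε → ∃ C : ℝ, ∀ T : ℝ, 2 ≤ T → ∀ a b : ℝ, 0 ≤ a → a ≤ b → b ≤ T →
      |(∫ t in a..b, power k t) - 2 * ∫ t in a..b, ‖poly k v t‖ ^ 2| ≤ C * T ^ ε *
        ((∫ t in (a - T ^ ε)..(a + T ^ ε), power k t) + (∫ t in (b - T ^ ε)..(b + T ^ ε), power k t) +
          (∫ t in a..b, power k t / (1 + t)) + 1)) ∧
    (∀ ε : ℝ, 0 < ε → ∃ C : ℝ, ∀ T : ℝ, 2 ≤ T → ∀ a b : ℝ, 0 ≤ a → a ≤ b → b ≤ T →
      ∫ t in a..b, power k t ≤ C * ((∫ t in (a - T ^ ε)..(b + T ^ ε), ‖poly k v t‖ ^ 2) + 1)) ∧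
    (∀ (P : Polynomial ℝ) (θ : ℝ), 0 ≤ θ →
      (HasMainTerm (fun T => ∫ t in (0:ℝ)..T, power k t) P θ ↔
        HasMainTerm (fun T => 2 * ∫ t in (0:ℝ)..T, ‖poly k v t‖ ^ 2) P θ)) ∧
    (∃ Q : Polynomial ℝ, Q.natDegree ≤ k ^ 2 ∧
      Q.coeff (k ^ 2) = 2 * ((k : ℝ) / 2) ^ (k ^ 2) * arith k / (k ^ 2).factorial ∧
      HasMainTerm (fun T => 2 * ∫ t in (0:ℝ)..T, (‖poly k v t‖ ^ 2 - offDiagonal k v t)) Q (max 0 (1 - (k : ℝ) / 4)) ∧
      ∀ (P : Polynomial ℝ) (θ : ℝ), max 0 (1 - (k : ℝ) / 4) ≤ θ →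
        (HasMainTerm (fun T => ∫ t in (0:ℝ)..T, power k t) P θ ↔
          HasMainTerm (fun T => 2 * ∫ t in (0:ℝ)..T, offDiagonal k v t) (P - Q) θ)) := by
  have hv' : Pool.Agent.J6H39.PI.Adm v := ⟨hv.smooth, hv.one, hv.sq⟩
  have hp : ∀ t : ℝ, power k t = ‖Pool.Agent.J6H39.PI.ff k t‖ ^ 2 := fun t => (power_eq k t).symm
  simp only [hp]
  refine ⟨fun ε hε => ?_, fun ε hε => ?_, fun P θ hθ => ?_, ?_⟩
  · obtain ⟨C, -, hC⟩ := Pool.Agent.J6H39.PI.SH_ k v hk hv' ε hε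
    exact ⟨C, hC⟩
  · obtain ⟨C, -, hC⟩ := Pool.Agent.J6H39.PI.UP_ k v hk hv' ε hε
    exact ⟨C, hC⟩
  · exact Pool.Agent.J6H39.PI.EQ_ k v hk hv' P θ hθ
  · obtain ⟨Q, hQ, HQ, H⟩ := Pool.Agent.J6H39.PI.off_iff Pool.Agent.J6H39.PI.EQ_ Pool.Agent.J6H39.PI.DQ_ hk hv'
    have hc := Pool.Agent.J6H39.PI.lead_coeff Pool.Agent.J6H39.PI.t_L2 hk hv' hQ HQ
    rw [Pool.Agent.J6H39.PI.t_L3 k hk] at hc
    refine ⟨Q, hQ, hc, ?_, H⟩
    intro ε hε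
    obtain ⟨C, hC⟩ := HQ ε hε
    refine ⟨C, fun T hT => ?_⟩
    have h1 := hC T hT
    have h2 : (∫ t in (0:ℝ)..T, (‖poly k v t‖ ^ 2 - offDiagonal k v t)) =
        ∫ t in (0:ℝ)..T, Pool.Agent.J6H39.PI.dia k v t := by
      refine intervalIntegral.integral_congr fun t _ => ?_
      have h3 := (Pool.Agent.J6H39.PI.t_OF k v hv').1 t
      have h4 : ‖poly k v t‖ ^ 2 - offDiagonal k v t =
        ‖Pool.Agent.J6H39.PI.DD k v t‖ ^ 2 - Pool.Agent.J6H39.PI.off k v t := rfl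
      rw [h4]
      linarith
    beta_reduce
    rw [h2]
    exact h1

end Pool.Agent.Results.MP_07318d_nt.ErrorTermEquivalence
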