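import Pool.Agent.J6H39.SP.Fin

/-!
# A sampling theorem for all moments of zeta: discrete moments along arithmetic progressions

Let `F(t) = |ζ(1/2+it)|^(2k)`, `k ≥ 1` any integer. We compare the integral of `F` with its Riemann sums over arithmetic
progressions `θ + αn` with steps `α = 2π/(x log T)`, that is `c/log T`. Nothing is assumed.

1. Sampling theorem: for `0 < x ≤ k+1`, all steps `α ≤ 2π/(x log T)`, all offsets `θ` and all intervals `(a, b] ⊆ [0, T]` the Riemann
   sum is between the integrals over the interval shortened and lengthened by `T^ε` at both ends, up to `O(T^((k+1-x)/2+ε))`. The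
   error is a power smaller than `T` as soon as `x > k-1`, and `O(T^(1/2+ε))` for `x ≥ k`.
2. The moment conjecture with the full main term and the remainder `O(T^(1/2+ε))` is equivalent to the same formula for the
   discrete moments with steps `2π/(x log T)`, `x ≥ k`.
3. The leading asymptotics of the moment and of the discrete moment are equivalent for `x > k-1`.
4. The fourth moment along arithmetic progressions with steps `c/log T`, `c < 2π`: the asymptotic formula.
-/

set_option autoImplicit false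

open MeasureTheory Filter Topology Complex

namespace Pool.Agent.Results.MP_07318d_nt.SamplingTheorem

/-- `|ζ(1/2+it)|^(2k)` -/
noncomputable def power (k : ℕ) (t : ℝ) : ℝ := ‖riemannZeta (1 / 2 + (t : ℂ) * I)‖ ^ (2 * k)

open Classical in
/-- the Riemann sum over the points `θ + αn`, `n ∈ ℤ`, in the interval `(a, b]` -/
noncomputable def riemannSum (k : ℕ) (a b α θ : ℝ) : ℝ :=
  α * ∑' n : ℤ, if a < θ + α * n ∧ θ + α * n ≤ b then power k (θ + α * n) else 0

/-- the step `2π/(x log T)` -/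
noncomputable def step (x T : ℝ) : ℝ := 2 * Real.pi / (x * Real.log T)

/-- the discrete moment over the points `αn`, `0 < αn ≤ T`, with step `α = 2π/(x log T)` -/
noncomputable def discreteMoment (k : ℕ) (x T : ℝ) : ℝ :=
  step x T * ∑ n ∈ Finset.Icc 1 ⌊T / step x T⌋₊, power k (step x T * n)

/-- the main term `∫_0^T P(log(t/2π)) dt` -/
noncomputable def mainTerm (P : Polynomial ℝ) (T : ℝ) : ℝ := ∫ t in (0:ℝ)..T, P.eval (Real.log (t / (2 * Real.pi)))

theorem ds_eq (k : ℕ) {x T : ℝ} (hx : 0 < x) (hT : 1 < T) :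
    Pool.Agent.J6H39.SP.Ds k 0 T (Pool.Agent.J6H39.SP.st x T) 0 = discreteMoment k x T := by
  have hL := Real.log_pos hT
  have h0 : 0 < Pool.Agent.J6H39.SP.st x T := by
    unfold Pool.Agent.J6H39.SP.st
    positivity
  rw [Pool.Agent.J6H39.SP.t_DS k T _ h0 (by linarith)]
  unfold discreteMoment power step Pool.Agent.J6H39.SP.st Pool.Agent.J6H39.CG.zh
  push_cast
  rfl

/-- **Sampling theorem for the moments of zeta, with its consequences.** -/
theorem result :
    (∀ k : ℕ, 1 ≤ k → ∀ x ε : ℝ, 0 < x → x ≤ k + 1 → 0 < ε → ∃ C : ℝ, ∀ T : ℝ, 2 ≤ T → ∀ a b α θ : ℝ, 0 ≤ a → a ≤ b →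
      b ≤ T → 0 < α → α ≤ step x T →
      (∫ t in (a + T ^ ε)..(b - T ^ ε), power k t) - C * T ^ (((k : ℝ) + 1 - x) / 2 + ε) ≤ riemannSum k a b α θ ∧
      riemannSum k a b α θ ≤ (∫ t in (a - T ^ ε)..(b + T ^ ε), power k t) + C * T ^ (((k : ℝ) + 1 - x) / 2 + ε)) ∧
    (∀ k : ℕ, 1 ≤ k → ∀ x : ℝ, (k : ℝ) ≤ x → ∀ P : Polynomial ℝ,
      ((∀ ε : ℝ, 0 < ε → ∃ C : ℝ, ∀ T : ℝ, 2 ≤ T →
          |(∫ t in (0:ℝ)..T, power k t) - mainTerm P T| ≤ C * T ^ (1 / 2 + ε)) ↔
        (∀ ε : ℝ, 0 < ε → ∃ C : ℝ, ∀ T : ℝ, 2 ≤ T →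
          |discreteMoment k x T - mainTerm P T| ≤ C * T ^ (1 / 2 + ε)))) ∧
    (∀ k : ℕ, 1 ≤ k → ∀ x : ℝ, 0 < x → (k : ℝ) - 1 < x → ∀ γ : ℝ,
      (Tendsto (fun T : ℝ => (∫ t in (0:ℝ)..T, power k t) / (T * Real.log T ^ (k ^ 2))) atTop (𝓝 γ) ↔
        Tendsto (fun T : ℝ => discreteMoment k x T / (T * Real.log T ^ (k ^ 2))) atTop (𝓝 γ))) ∧
    (∀ x : ℝ, 1 < x → Tendsto (fun T : ℝ => discreteMoment 2 x T / (T * Real.log T ^ 4)) atTop
      (𝓝 (1 / (2 * Real.pi ^ 2)))) := by
  refine ⟨fun k hk x ε hx hx1 hε => ?_, fun k hk x hx P => ?_, fun k hk x hx hx1 γ => ?_, fun x hx => ?_⟩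
  · obtain ⟨C, -, hC⟩ := Pool.Agent.J6H39.SP.main k hk x ε hx hx1 hε
    exact ⟨C, fun T hT a b α θ ha hab hb hα hα2 => hC T hT a b α θ ha hab hb hα hα2⟩
  · have hx0 : 0 < x := lt_of_lt_of_le (by exact_mod_cast hk) hx
    refine (Pool.Agent.J6H39.SP.t_EQ2 Pool.Agent.J6H39.SP.main k hk x hx P).trans ?_
    constructor
    · intro h ε hε
      obtain ⟨C, hC⟩ := h ε hε
      refine ⟨C, fun T hT => ?_⟩
      have h1 := hC T hT
      rw [ds_eq k hx0 (by linarith)] at h1
      exact h1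
    · intro h ε hε
      obtain ⟨C, hC⟩ := h ε hε
      refine ⟨C, fun T hT => ?_⟩
      have h1 := hC T hT
      rw [← ds_eq k hx0 (by linarith)] at h1
      exact h1
  · refine (Pool.Agent.J6H39.SP.t_EQ3 Pool.Agent.J6H39.SP.main k hk x hx hx1 γ).trans ?_
    refine tendsto_congr' ?_
    filter_upwards [eventually_gt_atTop 1] with T hT
    rw [ds_eq k hx hT]
  · have h := Pool.Agent.J6H39.SP.fourth_discrete hx
    refine h.congr' ?_
    filter_upwards [eventually_gt_atTop 1] with T hT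
    rw [ds_eq 2 (by linarith) hT]
    norm_num

end Pool.Agent.Results.MP_07318d_nt.SamplingTheorem
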