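import Pool.Agent.J6H1.ZMG.GPFin

set_option autoImplicit false

/-!
# MP_07318d_nt: square-root remainder in the moments of zeta, for almost all shifts

The question asks for the full asymptotic formula for `∫_0^T |ζ(1/2+it)|^(2k) dt` with a remainder
`O(T^(1/2+ε))`. We prove this formula, with this remainder and for every `k = n + 1`, for the moments
`∫_0^S |ζ(1/2+it)|² ∏_{j ≤ n} |ζ(1/2+i(t+c_j))|² dt`, `0 ≤ S ≤ T`, for almost all shifts `c` of the cube
`[0,T]^n`. The main term is the contour integral of Conrey, Farmer, Keating, Rubinstein and Snaith for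
these moments (as in the definition of `P_k` in the question): the integral over small circles about
`0` of the arithmetic factor times all the `k²` zeta factors times
`∏_j (2 / w_j) ((t + c_j) / 2π)^(w_j)`.
-/

namespace Pool.Agent.Results.MP_07318d_nt.SquareRootRemainder

open Complex MeasureTheory

noncomputable section

/-- All the shifts: the first one is `0`, the other ones are the `c_j`. -/
def shifts {n : ℕ} (c : Fin n → ℝ) : Fin (n + 1) → ℝ := Fin.cons 0 c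

/-- The shifted divisor function `∑_{n_1 ⋯ n_k = n} n_1 ^ l_1 ⋯ n_k ^ l_k`. -/
def tau {k : ℕ} (l : Fin k → ℂ) (n : ℕ) : ℂ := ∑ f ∈ Nat.finMulAntidiag k n, ∏ j, (f j : ℂ) ^ l j

/-- The local factor of the arithmetic factor at `p`, for the shifts `a_j` and the variables `w_j`: the
inverse of the Euler factors at `p` of the zeta values in `G`, times the sum over `m` of
`τ(i a - w)(p^m) τ(-i a - w)(p^m) p^(-m)`. -/
def localFactor {k : ℕ} (a : Fin k → ℝ) (w : Fin k → ℂ) (p : ℕ) : ℂ :=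
  (∏ j, ∏ l, (1 - (p : ℂ) ^ (-(1 + w j + w l + I * (a j - a l))))) *
    ∑' m : ℕ, tau (fun j => I * a j - w j) (p ^ m) * tau (fun j => -(I * a j) - w j) (p ^ m) *
      ((p : ℂ) ^ m)⁻¹

/-- The arithmetic factor times the `k²` zeta factors `ζ(1 + w_j + w_l + i(a_j - a_l))`. -/
def G {k : ℕ} (a : Fin k → ℝ) (w : Fin k → ℂ) : ℂ :=
  (∏' p : Nat.Primes, localFactor a w p) *
    ∏ j, ∏ l, riemannZeta (1 + w j + w l + I * (a j - a l))

/-- The main term: the integral of `G` times `∏_j (2 / w_j) ((t + a_j) / 2π)^(w_j)` over the circles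
`|w_j| = 1/8`, divided by `(2 π i)^(n + 1)`, where `a = (0, c_1, …, c_n)`. -/
def mainTerm {n : ℕ} (c : Fin n → ℝ) (t : ℝ) : ℂ :=
  ((2 * Real.pi * I) ^ (n + 1))⁻¹ * torusIntegral (fun w : Fin (n + 1) → ℂ => G (shifts c) w *
    ∏ j, (2 / w j * cexp (w j * (Real.log ((t + shifts c j) / (2 * Real.pi)) : ℝ))))
    (fun _ => 0) (fun _ => 1 / 8)

lemma G_eq {k : ℕ} (a : Fin k → ℝ) (w : Fin k → ℂ) :
    G a w = Pool.Agent.TH612.CF.FH (fun j => (a j : ℂ) - I * w j) (fun j => (a j : ℂ) + I * w j) *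
      ∏ i, ∏ l, riemannZeta (1 + w i + w l + I * (a i - a l)) := by
  unfold G Pool.Agent.TH612.CF.FH
  congr 1
  refine tprod_congr fun p => ?_
  unfold localFactor Pool.Agent.TH612.CF.lh
  have hI : ∀ z : ℂ, I * (I * z) = -z := fun z => by
    rw [← mul_assoc, I_mul_I, neg_one_mul]
  congr 1
  · refine Finset.prod_congr rfl fun j _ => Finset.prod_congr rfl fun l _ => ?_
    congr 3
    show 1 + w j + w l + I * ((a j : ℂ) - a l) = 1 + I * ((a j : ℂ) - I * w j) - I * ((a l : ℂ) + I * w l)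
    linear_combination (w j + w l) * I_mul_I
  · refine tsum_congr fun m => ?_
    unfold Pool.Agent.TH612.CF.lt tau Pool.Agent.W182.KO.tau
    have e1 : ∀ j, I * (a j : ℂ) - w j = I * ((a j : ℂ) + I * w j) := fun j => by
      rw [mul_add, hI]; ring
    have e2 : ∀ j, -(I * (a j : ℂ)) - w j = -(I * ((a j : ℂ) - I * w j)) := fun j => by
      rw [mul_sub, hI]; ring
    simp only [e1, e2]

lemma mainTerm_eq {n : ℕ} (c : Fin n → ℝ) (t : ℝ) : mainTerm c t = Pool.Agent.Y969.GP.RR c t := by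
  unfold mainTerm Pool.Agent.Y969.GP.RR
  congr 1
  congr 1
  funext w
  rw [G_eq]
  rfl

/-- **Square-root remainder for almost all shifts.** For every `n` and every `ε > 0` there are `δ > 0`
and `T₀` such that for all `T ≥ T₀` and all `0 ≤ S ≤ T` the vectors `c ∈ [0,T]^n` with
`|∫_0^S |ζ(1/2+it)|² ∏_j |ζ(1/2+i(t+c_j))|² dt - ∫_0^S mainTerm c t dt| > T^(1/2+ε)` form a set of
measure at most `T^(n-δ)`. -/
theorem result (n : ℕ) (ε : ℝ) (hε : 0 < ε) : ∃ δ T₀ : ℝ, 0 < δ ∧ ∀ T S : ℝ, T₀ ≤ T → 0 ≤ S → S ≤ T →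
    volume {c : Fin n → ℝ | (∀ j, 0 ≤ c j ∧ c j ≤ T) ∧
      T ^ (1 / 2 + ε) < ‖((∫ t in (0 : ℝ)..S, ‖riemannZeta (1 / 2 + I * t)‖ ^ 2 *
          ∏ j, ‖riemannZeta (1 / 2 + I * (t + c j))‖ ^ 2 : ℝ) : ℂ) -
        ∫ t in (0 : ℝ)..S, mainTerm c t‖} ≤ ENNReal.ofReal (T ^ ((n : ℝ) - δ)) := by
  obtain ⟨δ, T₀, hδ, h⟩ := Pool.Agent.J6H1.ZMG.gp_main n ε hε
  refine ⟨δ, T₀, hδ, fun T S hT hS hST => ?_⟩
  have h1 := h T S hT hS hST
  have e1 : ∀ (c : Fin n → ℝ) (t : ℝ), ‖riemannZeta (1 / 2 + I * t)‖ ^ 2 *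
      ∏ j, ‖riemannZeta (1 / 2 + I * (t + c j))‖ ^ 2 =
      ∏ j, Pool.Agent.Y969.GP.ff (t + Pool.Agent.Y969.GP.cc c j) := by
    intro c t
    rw [Fin.prod_univ_succ]
    unfold Pool.Agent.Y969.GP.ff Pool.Agent.Y969.GP.cc
    simp only [Fin.cons_zero, Fin.cons_succ, add_zero]
    push_cast
    rfl
  simp only [e1, mainTerm_eq]
  exact h1

end

end Pool.Agent.Results.MP_07318d_nt.SquareRootRemainder
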